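import Mathlib

set_option autoImplicit false

namespace Pool.Agent.Results.MP_6fe4ed_an.Disproof

open Filter Topology

/-- The auxiliary entire function
`f_{ν,n}(x) = ∑_{m ≥ 0} Γ(2m+ν+1) / (m! Γ(m+ν+1) Γ(2m+ν-n+1)) x^m`. -/
noncomputable def f (ν : ℝ) (n : ℕ) (x : ℝ) : ℝ :=
  ∑' m : ℕ, Real.Gamma (2 * m + ν + 1) /
    (m.factorial * Real.Gamma (m + ν + 1) * Real.Gamma (2 * m + ν - n + 1)) * x ^ m

/-- `c` is a zero of multiplicity exactly `m ≥ 1` of the `l`-th derivative of `g`. -/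
def ZeroOfMult (g : ℝ → ℝ) (l : ℕ) (c : ℝ) (m : ℕ) : Prop :=
  1 ≤ m ∧ (∀ i < m, iteratedDeriv (l + i) g c = 0) ∧ iteratedDeriv (l + m) g c ≠ 0

/-- The number `k` of critical zeros among the `m` zeros of the `l`-th derivative of `g` at `c`. -/
noncomputable def critNum (g : ℝ → ℝ) (l : ℕ) (c : ℝ) (m : ℕ) : ℕ :=
  if iteratedDeriv (l - 1) g c = 0 then 0
  else if Even m then m / 2
  else if 0 < iteratedDeriv (l - 1) g c * iteratedDeriv (l + m) g c then (m + 1) / 2
  else (m - 1) / 2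

/-- `c` is a Fourier critical point of `g`: for some `l ≥ 1`, `c` is a zero (of some
multiplicity `m`) of the `l`-th derivative of `g` and at least one of these `m` zeros is critical. -/
def IsFourierCritical (g : ℝ → ℝ) (c : ℝ) : Prop :=
  ∃ l m : ℕ, 1 ≤ l ∧ ZeroOfMult g l c m ∧ 1 ≤ critNum g l c m

/-! ### Entire power series -/

/-- Coefficient sequences of everywhere absolutely convergent power series. -/
def Ent (c : ℕ → ℝ) : Prop := ∀ r : ℝ, 0 ≤ r → Summable (fun m => |c m| * r ^ m)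

/-- Sum of a power series. -/
noncomputable def S (c : ℕ → ℝ) (x : ℝ) : ℝ := ∑' m : ℕ, c m * x ^ m

lemma Ent.summable {c : ℕ → ℝ} (h : Ent c) (x : ℝ) : Summable (fun m => c m * x ^ m) := by
  have := h |x| (abs_nonneg x)
  refine Summable.of_norm ?_
  simpa [abs_mul, abs_pow] using this

lemma Ent.const_mul {c : ℕ → ℝ} (h : Ent c) (a : ℝ) : Ent (fun m => a * c m) := by
  intro r hr
  have := (h r hr).mul_left |a|
  refine this.congr ?_
  intro m
  rw [abs_mul]; ring

lemma Ent.add {c d : ℕ → ℝ} (h : Ent c) (h' : Ent d) : Ent (fun m => c m + d m) := by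
  intro r hr
  refine Summable.of_nonneg_of_le (fun m => by positivity) (fun m => ?_) ((h r hr).add (h' r hr))
  have := abs_add_le (c m) (d m)
  have hr' : 0 ≤ r ^ m := by positivity
  nlinarith

lemma Ent.nat_mul {c : ℕ → ℝ} (h : Ent c) : Ent (fun m => (m : ℝ) * c m) := by
  intro r hr
  refine Summable.of_nonneg_of_le (fun m => by positivity) (fun m => ?_) (h (2 * r) (by positivity))
  have h1 : (m : ℝ) ≤ 2 ^ m := by
    exact_mod_cast (Nat.lt_two_pow_self (n := m)).le
  rw [abs_mul, mul_pow, Nat.abs_cast]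
  have hr' : 0 ≤ r ^ m := by positivity
  have hc : 0 ≤ |c m| := abs_nonneg _
  have : 0 ≤ |c m| * r ^ m := by positivity
  nlinarith

lemma Ent.shift {c : ℕ → ℝ} (h : Ent c) : Ent (fun m => c (m + 1)) := by
  intro r hr
  have h1 := (summable_nat_add_iff 1).2 (h (r + 1) (by positivity))
  refine Summable.of_nonneg_of_le (fun m => by positivity) (fun m => ?_) h1
  have h2 : r ^ m ≤ (r + 1) ^ (m + 1) := by
    calc r ^ m ≤ (r + 1) ^ m := by gcongr; linarith
      _ ≤ (r + 1) ^ (m + 1) := pow_le_pow_right₀ (by linarith) (by omega)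
  exact mul_le_mul_of_nonneg_left h2 (abs_nonneg _)

/-- Coefficients of the derivative. -/
def D (c : ℕ → ℝ) : ℕ → ℝ := fun m => ((m : ℝ) + 1) * c (m + 1)

lemma Ent.deriv {c : ℕ → ℝ} (h : Ent c) : Ent (D c) := by
  have h1 := h.nat_mul.shift
  have h2 : (fun m : ℕ => ((m + 1 : ℕ) : ℝ) * c (m + 1)) = D c := by
    funext m
    simp [D]
  simpa only [h2] using h1

lemma hasDerivAt_S {c : ℕ → ℝ} (h : Ent c) (x : ℝ) : HasDerivAt (S c) (S (D c) x) x := by
  set R : ℝ := |x| + 1 with hR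
  have hR1 : 1 ≤ R := by have := abs_nonneg x; linarith
  have hu : Summable (fun m : ℕ => |(m : ℝ) * c m| * R ^ m) := h.nat_mul R (by linarith)
  have hx : x ∈ Metric.ball (0 : ℝ) R := by
    rw [Metric.mem_ball, dist_zero_right, Real.norm_eq_abs]; linarith
  have key := hasDerivAt_tsum_of_isPreconnected (𝕜 := ℝ) (F := ℝ)
    (g := fun (m : ℕ) (y : ℝ) => c m * y ^ m)
    (g' := fun (m : ℕ) (y : ℝ) => c m * (m * y ^ (m - 1)))
    (t := Metric.ball (0 : ℝ) R) (y₀ := x) (y := x) hu Metric.isOpen_ball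
    (convex_ball (0 : ℝ) R).isPreconnected
    (fun m y _ => (hasDerivAt_pow m y).const_mul (c m))
    (fun m y hy => by
      rw [Metric.mem_ball, dist_zero_right, Real.norm_eq_abs] at hy
      rw [Real.norm_eq_abs, abs_mul, abs_mul, abs_pow, Nat.abs_cast, abs_mul, Nat.abs_cast]
      have h1 : |y| ^ (m - 1) ≤ R ^ m := by
        calc |y| ^ (m - 1) ≤ R ^ (m - 1) := by gcongr
          _ ≤ R ^ m := pow_le_pow_right₀ hR1 (by omega)
      have h2 : 0 ≤ (m : ℝ) * |c m| := by positivity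
      nlinarith)
    hx (h.summable x) hx
  have e : ∑' m : ℕ, c m * (m * x ^ (m - 1)) = S (D c) x := by
    have hs : Summable (fun m : ℕ => c m * (m * x ^ (m - 1))) := by
      rw [← summable_nat_add_iff 1]
      refine (h.deriv.summable x).congr ?_
      intro m
      simp only [D, Nat.add_sub_cancel, Nat.cast_add, Nat.cast_one]
      ring
    rw [hs.tsum_eq_zero_add]
    simp only [S, D, Nat.cast_zero, zero_mul, mul_zero, zero_add, Nat.add_sub_cancel,
      Nat.cast_add, Nat.cast_one]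
    refine tsum_congr fun m => ?_
    ring
  rw [e] at key
  exact key

lemma deriv_S {c : ℕ → ℝ} (h : Ent c) : deriv (S c) = S (D c) :=
  funext fun x => (hasDerivAt_S h x).deriv

lemma iteratedDeriv_S {G : ℕ → ℕ → ℝ} (h : ∀ l, Ent (G l)) (hD : ∀ l, D (G l) = G (l + 1))
    (l : ℕ) : iteratedDeriv l (S (G 0)) = S (G l) := by
  induction l with
  | zero => simp
  | succ l ih => rw [iteratedDeriv_succ, ih, deriv_S (h l), hD]

/-! ### The coefficient sequences -/

/-- `e ν l m = 1 / (m! Γ(m + l + ν + 1))`. -/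
noncomputable def e (ν : ℝ) (l m : ℕ) : ℝ := 1 / (m.factorial * Real.Gamma (m + l + ν + 1))

/-- Coefficients of the `l`-th derivative of `f ν 1`. -/
noncomputable def G (ν : ℝ) (l m : ℕ) : ℝ := (2 * m + 2 * l + ν) * e ν l m

/-- `ν` is not an integer. -/
def NonInt (ν : ℝ) : Prop := ∀ k : ℤ, (k : ℝ) + ν ≠ 0

section general

variable {ν : ℝ} (hν : NonInt ν)

include hν

lemma Gamma_ne (k : ℤ) : Real.Gamma ((k : ℝ) + ν) ≠ 0 := by
  refine Real.Gamma_ne_zero fun m h => ?_
  apply hν (k + m)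
  push_cast
  linarith

lemma Gamma_succ (k : ℤ) : Real.Gamma ((k : ℝ) + ν + 1) = (k + ν) * Real.Gamma (k + ν) :=
  Real.Gamma_add_one (hν k)

lemma e_ne (l m : ℕ) : Real.Gamma ((m : ℝ) + l + ν + 1) ≠ 0 := by
  have := Gamma_ne hν (m + l + 1)
  push_cast at this
  convert this using 2; ring

lemma lin_ne (l m : ℕ) : (m : ℝ) + l + ν + 1 ≠ 0 := by
  have := hν (m + l + 1)
  push_cast at this
  intro h; apply this; linarith

/-- `Γ(m + 1 + l + ν + 1) = (m + l + ν + 1) Γ(m + l + ν + 1)` -/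
lemma Gamma_rec (l m : ℕ) : Real.Gamma ((m : ℝ) + l + ν + 1 + 1) =
    (m + l + ν + 1) * Real.Gamma ((m : ℝ) + l + ν + 1) :=
  Real.Gamma_add_one (lin_ne hν l m)

omit hν in
lemma D_e (l : ℕ) : D (e ν l) = e ν (l + 1) := by
  funext m
  simp only [D, e, Nat.factorial_succ, Nat.cast_mul, Nat.cast_add, Nat.cast_one]
  have h1 : ((m : ℝ) + 1) ≠ 0 := by positivity
  have h2 : (m.factorial : ℝ) ≠ 0 := by positivity
  have h3 : (m : ℝ) + 1 + l + ν + 1 = m + (l + 1) + ν + 1 := by ring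
  rw [h3]
  by_cases h4 : Real.Gamma ((m : ℝ) + (l + 1) + ν + 1) = 0
  · rw [h4]; simp
  · field_simp

omit hν in
lemma D_G (l : ℕ) : D (G ν l) = G ν (l + 1) := by
  funext m
  have := congrFun (D_e (ν := ν) l) m
  simp only [D] at this
  simp only [G, ← this, D]
  push_cast
  ring

lemma e_succ (l m : ℕ) : e ν l (m + 1) * ((m + 1) * (m + l + ν + 1)) = e ν l m := by
  simp only [e, Nat.factorial_succ, Nat.cast_mul, Nat.cast_add, Nat.cast_one]
  have h1 : ((m : ℝ) + 1) ≠ 0 := by positivity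
  have h2 : (m.factorial : ℝ) ≠ 0 := by positivity
  have h3 : (m : ℝ) + 1 + l + ν + 1 = m + l + ν + 1 + 1 := by ring
  rw [h3, Gamma_rec hν]
  have h4 := e_ne hν l m
  have h5 := lin_ne hν l m
  field_simp

lemma Ent_e (l : ℕ) : Ent (e ν l) := by
  intro r hr
  obtain ⟨N, hN⟩ := exists_nat_gt (2 * r + 10 + |ν|)
  refine summable_of_ratio_norm_eventually_le (r := 1/2) (by norm_num) ?_
  filter_upwards [eventually_ge_atTop N] with m hm
  have hmr : 2 * r + 10 + |ν| ≤ m := hN.le.trans (by exact_mod_cast hm)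
  have h1 := e_succ hν l m
  rw [← h1]
  simp only [norm_mul, Real.norm_eq_abs, abs_abs, abs_mul, abs_pow, abs_of_nonneg hr]
  have hl : (0 : ℝ) ≤ l := Nat.cast_nonneg l
  have hn := neg_abs_le ν
  have h2 : 1 ≤ (m : ℝ) + l + ν + 1 := by linarith
  have h3 : 0 ≤ (m : ℝ) + 1 := by positivity
  rw [abs_of_nonneg (by linarith : (0:ℝ) ≤ (m : ℝ) + l + ν + 1), abs_of_nonneg h3, pow_succ]
  have h4 : 0 ≤ |e ν l (m + 1)| * r ^ m := by positivity
  have h6 := abs_nonneg ν
  have h5 : r ≤ 1/2 * ((m + 1) * (m + l + ν + 1)) := by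
    nlinarith
  calc |e ν l (m + 1)| * (r ^ m * r) = (|e ν l (m + 1)| * r ^ m) * r := by ring
    _ ≤ (|e ν l (m + 1)| * r ^ m) * (1/2 * ((m + 1) * (m + l + ν + 1))) := by gcongr
    _ = _ := by ring

lemma Ent_G (l : ℕ) : Ent (G ν l) := by
  have h1 := ((Ent_e hν l).nat_mul.const_mul 2).add ((Ent_e hν l).const_mul (2 * l + ν))
  have h2 : (fun m : ℕ => 2 * ((m : ℝ) * e ν l m) + (2 * l + ν) * e ν l m) = G ν l := by
    funext m
    simp only [G]
    ring
  simpa only [h2] using h1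

/-- The function `f_{ν,1}` is the power series `S (G ν 0)`. -/
lemma f_eq : f ν 1 = S (G ν 0) := by
  funext x
  simp only [f, S]
  refine tsum_congr fun m => ?_
  congr 1
  simp only [G, e, Nat.cast_zero, mul_zero, add_zero, Nat.cast_one]
  have h1 := Gamma_succ hν (2 * m)
  push_cast at h1
  have h2 : (2 * (m : ℝ) + ν - 1 + 1) = 2 * m + ν := by ring
  rw [h2, h1]
  have h3 := Gamma_ne hν (2 * m)
  push_cast at h3
  have h4 := e_ne hν 0 m
  simp only [Nat.cast_zero, add_zero] at h4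
  have h5 : (m.factorial : ℝ) ≠ 0 := by positivity
  field_simp

lemma iteratedDeriv_f (l : ℕ) : iteratedDeriv l (f ν 1) = S (G ν l) := by
  rw [f_eq hν]; exact iteratedDeriv_S (Ent_G hν) D_G l

/-! ### Identities -/

/-- `S (e l) - (ν + l + 1) S (e (l+1)) = x S (e (l+2))`. -/
lemma S_rec (l : ℕ) (x : ℝ) :
    S (e ν l) x - (ν + l + 1) * S (e ν (l + 1)) x = x * S (e ν (l + 2)) x := by
  simp only [S]
  rw [← tsum_mul_left, ← tsum_mul_left, ← ((Ent_e hν l).summable x).tsum_sub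
    (((Ent_e hν (l + 1)).summable x).mul_left _)]
  have hs : Summable (fun m : ℕ => e ν l m * x ^ m - (ν + l + 1) * (e ν (l + 1) m * x ^ m)) :=
    ((Ent_e hν l).summable x).sub (((Ent_e hν (l + 1)).summable x).mul_left _)
  rw [hs.tsum_eq_zero_add]
  have key : ∀ m : ℕ, e ν l m - (ν + l + 1) * e ν (l + 1) m = m * e ν (l + 1) m := by
    intro m
    simp only [e, Nat.cast_add, Nat.cast_one]
    have h3 : (m : ℝ) + (l + 1) + ν + 1 = m + l + ν + 1 + 1 := by ring
    rw [h3, Gamma_rec hν]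
    have h1 := e_ne hν l m
    have h2 : (m.factorial : ℝ) ≠ 0 := by positivity
    have h5 := lin_ne hν l m
    field_simp
    ring
  have h0 := key 0
  simp only [Nat.cast_zero, zero_mul] at h0
  have h0' : e ν l 0 * x ^ 0 - (ν + l + 1) * (e ν (l + 1) 0 * x ^ 0) = 0 := by
    linear_combination (x ^ 0) * h0
  rw [h0', zero_add]
  refine tsum_congr fun m => ?_
  have hm := key (m + 1)
  have hd := congrFun (D_e (ν := ν) (l + 1)) m
  simp only [D] at hd
  push_cast at hm
  rw [show l + 2 = l + 1 + 1 from rfl, ← hd]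
  linear_combination (x ^ (m + 1)) * hm

/-- `S (G l) = 2 x S (e (l+1)) + (ν + 2 l) S (e l)`. -/
lemma S_G (l : ℕ) (x : ℝ) :
    S (G ν l) x = 2 * x * S (e ν (l + 1)) x + (ν + 2 * l) * S (e ν l) x := by
  have h1 : ∑' m : ℕ, (m : ℝ) * e ν l m * x ^ m = x * S (e ν (l + 1)) x := by
    rw [((Ent_e hν l).nat_mul.summable x).tsum_eq_zero_add]
    simp only [S, Nat.cast_zero, zero_mul, zero_add]
    rw [← tsum_mul_left]
    refine tsum_congr fun m => ?_
    have hd := congrFun (D_e (ν := ν) l) m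
    simp only [D] at hd
    rw [← hd]
    push_cast
    ring
  have h2 : S (G ν l) x = 2 * (∑' m : ℕ, (m : ℝ) * e ν l m * x ^ m) + (ν + 2 * l) * S (e ν l) x := by
    simp only [S]
    rw [← tsum_mul_left, ← tsum_mul_left, ← (((Ent_e hν l).nat_mul.summable x).mul_left 2).tsum_add
      (((Ent_e hν l).summable x).mul_left _)]
    refine tsum_congr fun m => ?_
    simp only [G]
    ring
  rw [h2, h1]; ring

/-- The key identity at a zero of `f^{(l+1)}`. -/
lemma key_identity (l : ℕ) (c : ℝ) (h : S (G ν (l + 1)) c = 0) :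
    4 * c * (S (G ν l) c * S (G ν (l + 2)) c) =
      (S (e ν (l + 1)) c) ^ 2 * ((4 * c + ν * (2 * l + ν)) * (4 * c + ν * (2 * l + 2 + ν))) := by
  have r0 := S_rec hν l c
  have r1 := S_rec hν (l + 1) c
  have g0 := S_G hν l c
  have g1 := S_G hν (l + 1) c
  have g2 := S_G hν (l + 2) c
  push_cast at r0 r1 g0 g1 g2
  rw [h] at g1
  rw [g0, g2]
  rw [show l + 1 + 1 = l + 2 from rfl] at g1 r1
  rw [show l + 1 + 2 = l + 2 + 1 from rfl] at r1
  generalize S (e ν l) c = u at *
  generalize S (e ν (l + 1)) c = v at *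
  generalize S (e ν (l + 2)) c = w at *
  generalize S (e ν (l + 2 + 1)) c = z at *
  -- `2 u = ν v`
  have hu : 2 * u = ν * v := by linear_combination -g1 + (2:ℝ) * r0
  have hF0 : 2 * (2 * c * v + (ν + 2 * l) * u) = v * (4 * c + ν * (2 * l + ν)) := by
    linear_combination (ν + 2 * l) * hu
  have hF2 : 2 * c * (2 * c * z + (ν + 2 * (l + 2)) * w) = v * (4 * c + ν * (2 * l + 2 + ν)) := by
    linear_combination (-4*c) * r1 - 2 * (ν) * (-1) * r0 - ν * hu
  calc 4 * c * ((2 * c * v + (ν + 2 * l) * u) * (2 * c * z + (ν + 2 * (l + 2)) * w))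
      = (2 * (2 * c * v + (ν + 2 * l) * u)) * (2 * c * (2 * c * z + (ν + 2 * (l + 2)) * w)) := by ring
    _ = _ := by rw [hF0, hF2]; ring

/-- At a zero of `f^{(l+1)}`, the value of `f^{(l)}` is a multiple of `S (e (l+1))`. -/
lemma key_identity' (l : ℕ) (c : ℝ) (h : S (G ν (l + 1)) c = 0) :
    2 * S (G ν l) c = S (e ν (l + 1)) c * (4 * c + ν * (2 * l + ν)) := by
  have r0 := S_rec hν l c
  have g0 := S_G hν l c
  have g1 := S_G hν (l + 1) c
  push_cast at r0 g0 g1
  rw [h] at g1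
  rw [g0]
  rw [show l + 1 + 1 = l + 2 from rfl] at g1
  generalize S (e ν l) c = u at *
  generalize S (e ν (l + 1)) c = v at *
  generalize S (e ν (l + 2)) c = w at *
  have hu : 2 * u = ν * v := by linear_combination -g1 + (2:ℝ) * r0
  linear_combination (ν + 2 * l) * hu

end general

/-! ### Bounds -/

lemma tail_bound {a : ℕ → ℝ} {M : ℕ} {q x : ℝ} (hq0 : 0 ≤ q) (ha : ∀ m, M ≤ m → 0 ≤ a m)
    (hq : ∀ m, M ≤ m → a (m + 1) ≤ q * a m) (hx : q * |x| < 1) :
    |∑' m : ℕ, a (m + M) * x ^ (m + M)| ≤ a M * |x| ^ M / (1 - q * |x|) := by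
  have h1 : ∀ m : ℕ, a (m + M) ≤ q ^ m * a M := by
    intro m
    induction m with
    | zero => simp
    | succ m ih =>
      calc a (m + 1 + M) = a ((m + M) + 1) := by congr 1; ring
        _ ≤ q * a (m + M) := hq _ (by omega)
        _ ≤ q * (q ^ m * a M) := by gcongr
        _ = q ^ (m + 1) * a M := by ring
  have h2 : HasSum (fun m : ℕ => a M * |x| ^ M * (q * |x|) ^ m)
      (a M * |x| ^ M * (1 - q * |x|)⁻¹) :=
    (hasSum_geometric_of_lt_one (by positivity) hx).mul_left _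
  rw [div_eq_mul_inv, ← Real.norm_eq_abs (∑' m : ℕ, a (m + M) * x ^ (m + M))]
  refine tsum_of_norm_bounded h2 fun m => ?_
  rw [Real.norm_eq_abs, abs_mul, abs_pow, abs_of_nonneg (ha _ (by omega))]
  calc a (m + M) * |x| ^ (m + M) ≤ (q ^ m * a M) * |x| ^ (m + M) := by
        gcongr; exact h1 m
    _ = a M * |x| ^ M * (q * |x|) ^ m := by rw [pow_add, mul_pow]; ring

/-- The parameter of the counterexample. -/
noncomputable def nu : ℝ := -21/10

lemma nu_eq : nu = -21/10 := rfl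

lemma nonInt_nu : NonInt nu := by
  intro k h
  rw [nu_eq] at h
  have h1 : (10 : ℝ) * k = 21 := by linarith
  have h2 : (10 : ℤ) * k = 21 := by exact_mod_cast h1
  omega

lemma G_pos (l m : ℕ) : 0 < G nu (l + 1) m := by
  simp only [G, e]
  have h2 : (0 : ℝ) < m.factorial := by positivity
  rcases Nat.eq_zero_or_pos (m + l) with h | h
  · have hm : m = 0 := by omega
    have hl : l = 0 := by omega
    subst hm; subst hl
    have h3 := Gamma_rec nonInt_nu 1 0
    have h4 : 0 < Real.Gamma (((0 : ℕ) : ℝ) + (1 : ℕ) + nu + 1 + 1) := by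
      apply Real.Gamma_pos_of_pos
      rw [nu_eq]; norm_num
    rw [h3] at h4
    have h5 : ((0 : ℕ) : ℝ) + (1 : ℕ) + nu + 1 < 0 := by rw [nu_eq]; norm_num
    have h6 : Real.Gamma (((0 : ℕ) : ℝ) + (1 : ℕ) + nu + 1) < 0 := by
      by_contra h7
      push Not at h7
      have := mul_nonpos_of_nonpos_of_nonneg h5.le h7
      linarith
    have h8 : (2 * ((0 : ℕ) : ℝ) + 2 * ((0 + 1 : ℕ) : ℝ) + nu) < 0 := by rw [nu_eq]; norm_num
    apply mul_pos_of_neg_of_neg h8
    apply one_div_neg.2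
    exact mul_neg_of_pos_of_neg h2 (by simpa using h6)
  · have h3 : (1 : ℝ) ≤ m + l := by exact_mod_cast h
    have h4 : 0 < Real.Gamma ((m : ℝ) + (l + 1 : ℕ) + nu + 1) := by
      apply Real.Gamma_pos_of_pos
      rw [nu_eq]; push_cast; linarith
    have h5 : 0 < (2 * (m : ℝ) + 2 * ((l + 1 : ℕ) : ℝ) + nu) := by
      rw [nu_eq]; push_cast; linarith
    positivity

lemma S_G_pos (l : ℕ) {c : ℝ} (hc : 0 ≤ c) : 0 < S (G nu (l + 1)) c := by
  have hs := (Ent_G nonInt_nu (l + 1)).summable c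
  have h1 : G nu (l + 1) 0 * c ^ 0 ≤ ∑' m : ℕ, G nu (l + 1) m * c ^ m :=
    hs.le_tsum 0 (fun m _ => mul_nonneg (G_pos l m).le (by positivity))
  have h2 := G_pos l 0
  simp only [pow_zero, mul_one] at h1
  exact lt_of_lt_of_le h2 h1

/-- `f''` has no zeros on `[-21/400, 0]`. -/
lemma F2_pos {c : ℝ} (h1 : -21/400 ≤ c) (h2 : c ≤ 0) : 0 < S (G nu 2) c := by
  have hs := (Ent_G nonInt_nu 2).summable c
  have hG : ∀ m : ℕ, G nu 2 (m + 1) ≤ (5/2) * G nu 2 m := by
    intro m
    have h3 := e_succ nonInt_nu 2 m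
    have h4 : 0 < e nu 2 (m + 1) := by
      have := G_pos 1 (m + 1)
      simp only [G] at this
      rw [nu_eq] at this ⊢
      push_cast at this ⊢
      by_contra h5
      push Not at h5
      have hm : (0 : ℝ) ≤ m := by positivity
      nlinarith
    simp only [G]
    rw [← h3]
    generalize e nu 2 (m + 1) = E at *
    rw [nu_eq]
    push_cast
    have hm : (0 : ℝ) ≤ m := by positivity
    have h6 : (2 * ((m : ℝ) + 1) + 2 * 2 + -21 / 10) ≤
        5 / 2 * ((2 * m + 2 * 2 + -21 / 10) * ((m + 1) * (m + 2 + -21 / 10 + 1))) := by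
      nlinarith [mul_nonneg hm hm, mul_nonneg hm (mul_nonneg hm hm)]
    calc (2 * ((m : ℝ) + 1) + 2 * 2 + -21 / 10) * E
        ≤ (5 / 2 * ((2 * m + 2 * 2 + -21 / 10) * ((m + 1) * (m + 2 + -21 / 10 + 1)))) * E := by
          gcongr
      _ = _ := by ring
  have habs : |c| ≤ 21/400 := by rw [abs_le]; constructor <;> linarith
  have hq : 5/2 * |c| < 1 := by linarith
  have key := tail_bound (a := G nu 2) (M := 1) (q := 5/2) (x := c) (by norm_num)
    (fun m _ => (G_pos 1 m).le) (fun m _ => hG m) hq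
  have hsplit : S (G nu 2) c = G nu 2 0 + ∑' m : ℕ, G nu 2 (m + 1) * c ^ (m + 1) := by
    simp only [S]
    rw [hs.tsum_eq_zero_add]
    simp
  have h3 : G nu 2 1 * |c| ^ 1 / (1 - 5/2 * |c|) < G nu 2 0 := by
    have h4 := hG 0
    have h5 := G_pos 1 0
    simp only [zero_add] at h4
    rw [div_lt_iff₀ (by linarith), pow_one]
    have h6 : 0 ≤ |c| := abs_nonneg c
    calc G nu 2 1 * |c| ≤ (5/2 * G nu 2 0) * |c| := by gcongr
      _ < G nu 2 0 * (1 - 5/2 * |c|) := by
        have : (1 : ℕ) + 1 = 2 := rfl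
        rw [this] at h5
        nlinarith
  rw [hsplit]
  have h4 := neg_abs_le (∑' m : ℕ, G nu 2 (m + 1) * c ^ (m + 1))
  linarith

lemma aux_tail {t : ℝ} (ht1 : 21/400 ≤ t) (ht2 : t ≤ 441/400) :
    (99/10 / (9/5) / (57/10) / (58/5) / (39/2)) * t ^ 5 ≤ (1/100) * (1 - 1/10 * t) := by
  have ht5 : t ^ 5 ≤ (441/400) ^ 5 := by gcongr
  calc (99/10 / (9/5) / (57/10) / (58/5) / (39/2)) * t ^ 5
      ≤ (99/10 / (9/5) / (57/10) / (58/5) / (39/2)) * (441/400) ^ 5 := by gcongr
    _ ≤ (1/100) * (1 - 1/10 * (441/400)) := by norm_num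
    _ ≤ (1/100) * (1 - 1/10 * t) := by linarith

lemma aux_poly {t : ℝ} (ht1 : 21/400 ≤ t) (ht2 : t ≤ 441/400) :
    1/50 - 19/10 * t + 13/6 * t ^ 2 - (59/10 / (9/5) / (57/10)) * t ^ 3
      + (79/10 / (9/5) / (57/10) / (58/5)) * t ^ 4 < 0 := by
  have h3 : 0 ≤ (t - 21/400) * (441/400 - t) := mul_nonneg (by linarith) (by linarith)
  have h4 : 0 ≤ (t - 21/400) * (441/400 - t) * t := mul_nonneg h3 (by linarith)
  have h5 : 0 ≤ (t - 21/400) * (441/400 - t) * t ^ 2 := mul_nonneg h3 (by positivity)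
  nlinarith

/-- `f'` has no zeros on `[-441/400, -21/400]`. -/
lemma F1_neg {c : ℝ} (h1 : -441/400 ≤ c) (h2 : c ≤ -21/400) : S (G nu 1) c < 0 := by
  have hs := (Ent_G nonInt_nu 1).summable c
  set E : ℝ := e nu 1 1 with hE
  have e0 : e nu 1 0 = -1/10 * E := by
    have := e_succ nonInt_nu 1 0
    rw [nu_eq] at this ⊢
    rw [nu_eq] at hE
    push_cast at this
    rw [← this, hE]; ring_nf
  have e2 : e nu 1 2 = E / (9/5) := by
    have := e_succ nonInt_nu 1 1
    rw [nu_eq] at this ⊢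
    rw [nu_eq] at hE
    push_cast at this
    rw [eq_div_iff (by norm_num), hE, ← this]; ring_nf
  have e3 : e nu 1 3 = E / (9/5) / (57/10) := by
    have := e_succ nonInt_nu 1 2
    rw [← e2]
    rw [nu_eq] at this ⊢
    push_cast at this
    rw [eq_div_iff (by norm_num), ← this]; ring_nf
  have e4 : e nu 1 4 = E / (9/5) / (57/10) / (58/5) := by
    have := e_succ nonInt_nu 1 3
    rw [← e3]
    rw [nu_eq] at this ⊢
    push_cast at this
    rw [eq_div_iff (by norm_num), ← this]; ring_nf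
  have e5 : e nu 1 5 = E / (9/5) / (57/10) / (58/5) / (39/2) := by
    have := e_succ nonInt_nu 1 4
    rw [← e4]
    rw [nu_eq] at this ⊢
    push_cast at this
    rw [eq_div_iff (by norm_num), ← this]; ring_nf
  have hEpos : 0 < E := by
    have h3 := G_pos 0 1
    simp only [G] at h3
    have h4 : (0:ℝ) < 2 * ((1 : ℕ) : ℝ) + 2 * ((0 + 1 : ℕ) : ℝ) + nu := by
      rw [nu_eq]; norm_num
    exact (pos_iff_pos_of_mul_pos h3).1 h4
  have hG : ∀ m : ℕ, 5 ≤ m → G nu 1 (m + 1) ≤ (1/10) * G nu 1 m := by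
    intro m hm5
    have h3 := e_succ nonInt_nu 1 m
    have hm : (5 : ℝ) ≤ m := by exact_mod_cast hm5
    have h4 : 0 < e nu 1 (m + 1) := by
      have := G_pos 0 (m + 1)
      simp only [G] at this
      rw [nu_eq] at this ⊢
      push_cast at this ⊢
      by_contra h5
      push Not at h5
      nlinarith
    simp only [G]
    rw [← h3]
    generalize e nu 1 (m + 1) = E at *
    rw [nu_eq]
    push_cast
    have h6 : (2 * ((m : ℝ) + 1) + 2 * 1 + -21 / 10) ≤
        1 / 10 * ((2 * m + 2 * 1 + -21 / 10) * ((m + 1) * (m + 1 + -21 / 10 + 1))) := by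
      obtain ⟨k, hk⟩ : ∃ k : ℝ, (m : ℝ) = k + 5 := ⟨m - 5, by ring⟩
      have hk0 : 0 ≤ k := by linarith
      rw [hk]
      nlinarith [mul_nonneg hk0 hk0, mul_nonneg hk0 (mul_nonneg hk0 hk0)]
    calc (2 * ((m : ℝ) + 1) + 2 * 1 + -21 / 10) * E
        ≤ (1 / 10 * ((2 * m + 2 * 1 + -21 / 10) * ((m + 1) * (m + 1 + -21 / 10 + 1)))) * E := by
          gcongr
      _ = _ := by ring
  have habs : |c| = -c := abs_of_neg (by linarith)
  have hq : 1/10 * |c| < 1 := by rw [habs]; linarith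
  have key := tail_bound (a := G nu 1) (M := 5) (q := 1/10) (x := c) (by norm_num)
    (fun m _ => (G_pos 0 m).le) hG hq
  have hsplit : S (G nu 1) c = (G nu 1 0 + G nu 1 1 * c + G nu 1 2 * c ^ 2 + G nu 1 3 * c ^ 3
      + G nu 1 4 * c ^ 4) + ∑' m : ℕ, G nu 1 (m + 5) * c ^ (m + 5) := by
    simp only [S]
    rw [← hs.sum_add_tsum_nat_add 5]
    simp [Finset.sum_range_succ]
  have hle := le_abs_self (∑' m : ℕ, G nu 1 (m + 5) * c ^ (m + 5))
  have hG0 : G nu 1 0 = E * (1/100) := by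
    simp only [G]; rw [e0, nu_eq]; push_cast; ring
  have hG1 : G nu 1 1 = E * (19/10) := by
    simp only [G]; rw [← hE, nu_eq]; push_cast; ring
  have hG2 : G nu 1 2 = E * (13/6) := by
    simp only [G]; rw [e2, nu_eq]; push_cast; ring
  have hG3 : G nu 1 3 = E * (59/10 / (9/5) / (57/10)) := by
    simp only [G]; rw [e3, nu_eq]; push_cast; ring
  have hG4 : G nu 1 4 = E * (79/10 / (9/5) / (57/10) / (58/5)) := by
    simp only [G]; rw [e4, nu_eq]; push_cast; ring
  have hG5 : G nu 1 5 = E * (99/10 / (9/5) / (57/10) / (58/5) / (39/2)) := by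
    simp only [G]; rw [e5, nu_eq]; push_cast; ring
  rw [hsplit, hG0, hG1, hG2, hG3, hG4]
  rw [hG5] at key
  obtain ⟨t, ht⟩ : ∃ t : ℝ, c = -t := ⟨-c, by ring⟩
  have ht1 : 21/400 ≤ t := by linarith
  have ht2 : t ≤ 441/400 := by linarith
  have hct : |c| = t := by rw [habs]; linarith
  rw [hct] at key
  have hk : E * (99/10 / (9/5) / (57/10) / (58/5) / (39/2)) * t ^ 5 / (1 - 1/10 * t) ≤
      E * (1/100) := by
    rw [div_le_iff₀ (by linarith), mul_assoc, mul_assoc]
    exact mul_le_mul_of_nonneg_left (aux_tail ht1 ht2) hEpos.le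
  have hp := aux_poly ht1 ht2
  have hmul : E * (1/50 - 19/10 * t + 13/6 * t ^ 2 - (59/10 / (9/5) / (57/10)) * t ^ 3
      + (79/10 / (9/5) / (57/10) / (58/5)) * t ^ 4) < 0 := mul_neg_of_pos_of_neg hEpos hp
  have htail := hle.trans (key.trans hk)
  rw [ht] at htail ⊢
  have hring : E * (1/100) + E * (19/10) * (-t) + E * (13/6) * (-t) ^ 2
      + E * (59/10 / (9/5) / (57/10)) * (-t) ^ 3
      + E * (79/10 / (9/5) / (57/10) / (58/5)) * (-t) ^ 4 + E * (1/100) =
      E * (1/50 - 19/10 * t + 13/6 * t ^ 2 - (59/10 / (9/5) / (57/10)) * t ^ 3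
      + (79/10 / (9/5) / (57/10) / (58/5)) * t ^ 4) := by ring
  linarith

/-- The signs of `f^{(l)}` and `f^{(l+2)}` are opposite at each zero of `f^{(l+1)}`
at which `f^{(l)}` does not vanish. -/
lemma sign_at_zero (l : ℕ) (c : ℝ) (h : S (G nu (l + 1)) c = 0) (h0 : S (G nu l) c ≠ 0) :
    S (G nu l) c * S (G nu (l + 2)) c < 0 := by
  have hc : c < 0 := by
    by_contra hc
    push Not at hc
    exact absurd h (S_G_pos l hc).ne'
  have k1 := key_identity nonInt_nu l c h
  have k2 := key_identity' nonInt_nu l c h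
  have hv : S (e nu (l + 1)) c ≠ 0 := by
    intro hv
    rw [hv, zero_mul] at k2
    exact h0 (by linarith)
  have hv2 : 0 < (S (e nu (l + 1)) c) ^ 2 := by positivity
  have hP : 0 < (4 * c + nu * (2 * l + nu)) * (4 * c + nu * (2 * l + 2 + nu)) := by
    rcases Nat.lt_or_ge l 2 with hl | hl
    · interval_cases l
      · -- `l = 0`
        have h1 : ¬ (-441/400 ≤ c ∧ c ≤ -21/400) := fun hh =>
          absurd h (F1_neg hh.1 hh.2).ne
        rw [nu_eq]
        push_cast
        rcases lt_or_ge c (-441/400) with h2 | h2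
        · apply mul_pos_of_neg_of_neg <;> linarith
        · have h3 : -21/400 < c := by
            by_contra h3
            push Not at h3
            exact h1 ⟨h2, h3⟩
          apply mul_pos <;> linarith
      · -- `l = 1`
        have h1 : c < -21/400 := by
          by_contra h2
          push Not at h2
          exact absurd h (F2_pos h2 hc.le).ne'
        rw [nu_eq]
        push_cast
        apply mul_pos_of_neg_of_neg <;> linarith
    · have hl' : (2 : ℝ) ≤ l := by exact_mod_cast hl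
      rw [nu_eq]
      apply mul_pos_of_neg_of_neg <;> nlinarith
  have h4 : 0 < 4 * c * (S (G nu l) c * S (G nu (l + 2)) c) := by
    rw [k1]; positivity
  by_contra h5
  push Not at h5
  nlinarith

/-- `f_{-21/10,1}` has no Fourier critical points. -/
theorem no_critical (c : ℝ) : ¬ IsFourierCritical (f nu 1) c := by
  rintro ⟨l, m, hl, ⟨hm, hz, hnz⟩, hk⟩
  obtain ⟨l, rfl⟩ : ∃ k, l = k + 1 := ⟨l - 1, by omega⟩
  have hz0 := hz 0 (by omega)
  simp only [add_zero, iteratedDeriv_f nonInt_nu] at hz0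
  unfold critNum at hk
  simp only [Nat.add_sub_cancel, iteratedDeriv_f nonInt_nu] at hk
  by_cases h0 : S (G nu l) c = 0
  · rw [if_pos h0] at hk
    omega
  · rw [if_neg h0] at hk
    have hs := sign_at_zero l c hz0 h0
    have hm1 : m = 1 := by
      by_contra hm1
      have h1 := hz 1 (by omega)
      rw [iteratedDeriv_f nonInt_nu] at h1
      rw [show l + 2 = l + 1 + 1 from rfl, h1, mul_zero] at hs
      exact lt_irrefl _ hs
    subst hm1
    rw [if_neg (by decide), if_neg (by rw [show l + 1 + 1 = l + 2 from rfl]; exact not_lt.2 hs.le)]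
      at hk
    omega

/-- **Disproof of Q1.** For `n = 1`, `s = 1`, `ν = -21/10` one has `n-2s-2 < ν < n-2s-1`, but
`f_{ν,n}` has no Fourier critical point at all (Q1 predicts exactly `s = 1` of them). -/
theorem result : ∃ (n s : ℕ) (ν : ℝ), n = 1 ∧ s = 1 ∧ ν = -21/10 ∧
    (n : ℝ) - 2 * s - 2 < ν ∧ ν < (n : ℝ) - 2 * s - 1 ∧
    {c : ℝ | IsFourierCritical (f ν n) c} = ∅ :=
  ⟨1, 1, -21/10, rfl, rfl, rfl, by norm_num, by norm_num,
    Set.eq_empty_iff_forall_notMem.2 no_critical⟩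

end Pool.Agent.Results.MP_6fe4ed_an.Disproof
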